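import Mathlib

/-!
# Strict positivity does not suffice in the symmetric Reznick theorem (Q2)

Let `b = 4 p_2 / 57` and let `z` stand for the squares of the variables. Put
`U_2 = (p_4 - 98 b^2) b^2`, `U_3 = (p_6 - 794 b^3) b`, `U_4 = p_8 - 6818 b^4`, let `W_1, W_2, W_3` be
suitable linear combinations of them, `R` Robinson's form (nonnegative, not a sum of squares), and
`H = sum_i z_i^2 (z_i - b)^2 (z_i - 4 b)^2 (z_i - 9 b)^2`. The symmetric function
`f = b^8 R(W_1, W_2, W_3) + H^4` (degree 64) is strictly positive on the unit sphere of the space of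
square summable sequences: `H = 0` would force all `z_i` into `{0, b, 4 b, 9 b}`, and `57 / 4` is not
an integer. On the other hand `f` vanishes at the limit point with coordinates `1, 2, 3` and infinitely
fine dust of mass `1/4`. There its Taylor expansion starts with a multiple of Robinson's form of the
three coordinates. If `p_2^k f` were an any-dimensional sum of squares, then third order coefficients
of the squares along nine lines through that point would converge to a sum of squares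
representation of Robinson's form on the nine points `(i, j, 1)`, `i, j = -1, 0, 1`, which contradicts
the linear relation between the values of a cubic form at these points.
-/

set_option autoImplicit false

open MvPolynomial Filter Topology

namespace Pool.Agent.Results.MP_2f3180_ag.ReznickFails

/-- The value `g(p_1(x), p_2(x), ...)` of the symmetric function `g` at a sequence `x`, where
`p_j(x) = ∑ x_i ^ j`. -/
noncomputable def value (g : MvPolynomial ℕ ℝ) (x : ℕ → ℝ) : ℝ :=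
  eval (fun j => ∑' i, x i ^ j) g

/-- `x` is a square summable sequence with `p_2(x) = 1`. -/
def InSphere (x : ℕ → ℝ) : Prop :=
  Summable (fun i => x i ^ 2) ∧ ∑' i, x i ^ 2 = 1

/-- The truncation `f^(n)` of the symmetric function `f(p_1, p_2, ...)` to `n` variables: the
power sum `p_j` is replaced by `X_1^j + ... + X_n^j`. -/
noncomputable def trunc (n : ℕ) (f : MvPolynomial ℕ ℝ) : MvPolynomial (Fin n) ℝ :=
  aeval (fun j => psum (Fin n) ℝ j) f

/-- `f` is an any-dimensional sum of squares: every truncation is a sum of squares of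
polynomials. -/
def AnyDimSOS (f : MvPolynomial ℕ ℝ) : Prop := ∀ n : ℕ, 1 ≤ n → IsSumSq (trunc n f)



/-- the coefficient of a polynomial of bounded degree is bounded by its values at integers -/
theorem coeff_le_values (D j : ℕ) : ∃ K : ℝ, 0 ≤ K ∧ ∀ q : Polynomial ℝ, q.natDegree ≤ D →
    (q.coeff j) ^ 2 ≤ K * ∑ t ∈ Finset.range (D + 1), (q.eval (t : ℝ)) ^ 2 := by
  classical
  set s := Finset.range (D + 1) with hs
  set v : ℕ → ℝ := fun i => (i : ℝ) with hv
  have hinj : Set.InjOn v s := fun a _ b _ h => Nat.cast_injective h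
  refine ⟨∑ t ∈ s, ((Lagrange.basis s v t).coeff j) ^ 2, Finset.sum_nonneg fun _ _ => sq_nonneg _,
    fun q hq => ?_⟩
  have hdeg : q.degree < (s.card : WithBot ℕ) := by
    rw [hs, Finset.card_range]
    refine lt_of_le_of_lt Polynomial.degree_le_natDegree ?_
    exact_mod_cast Nat.lt_succ_of_le hq
  have h := Lagrange.eq_interpolate (f := q) hinj hdeg
  have h2 : q.coeff j = ∑ t ∈ s, (Lagrange.basis s v t).coeff j * q.eval (v t) := by
    conv_lhs => rw [h]
    rw [Lagrange.interpolate_apply, Polynomial.finsetSum_coeff]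
    refine Finset.sum_congr rfl fun t _ => ?_
    rw [Polynomial.coeff_C_mul, mul_comm]
  rw [h2]
  exact Finset.sum_mul_sq_le_sq_mul_sq s _ _

/-- degrees in a sum of squares of real polynomials -/
theorem natDegree_le_of_sum_sq {N : ℕ} (q : Fin N → Polynomial ℝ) (D : ℕ)
    (h : (∑ i, q i ^ 2).natDegree ≤ D) (i : Fin N) : (q i).natDegree ≤ D := by
  by_contra hcon
  push Not at hcon
  -- the maximal degree
  obtain ⟨i0, -, hi0⟩ := Finset.exists_max_image Finset.univ (fun i => (q i).natDegree)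
    ⟨i, Finset.mem_univ i⟩
  set e := (q i0).natDegree with he
  have he1 : D < e := lt_of_lt_of_le hcon (hi0 i (Finset.mem_univ i))
  have hc : ∀ i, (q i ^ 2).coeff (2 * e) = ((q i).coeff e) ^ 2 := by
    intro i
    have := Polynomial.coeff_pow_of_natDegree_le (p := q i) (m := 2) (n := e)
      (hi0 i (Finset.mem_univ i))
    simpa using this
  have h1 : (∑ i, q i ^ 2).coeff (2 * e) = 0 :=
    Polynomial.coeff_eq_zero_of_natDegree_lt (by omega)
  rw [Polynomial.finsetSum_coeff] at h1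
  simp only [hc] at h1
  have h2 := (Finset.sum_eq_zero_iff_of_nonneg (fun i _ => sq_nonneg _)).1 h1 i0
    (Finset.mem_univ _)
  have h3 : (q i0).coeff e = 0 := by
    exact pow_eq_zero_iff (two_ne_zero) |>.1 h2
  have h4 : q i0 = 0 := by
    rw [← Polynomial.leadingCoeff_eq_zero, Polynomial.leadingCoeff, ← he, h3]
  have : e = 0 := by rw [he, h4]; simp
  omega

/-- if `S a a → 0` and `S b b` stays bounded then `S a b → 0` -/
theorem cross_tendsto {N : ℕ → ℕ} (x y : (m : ℕ) → Fin (N m) → ℝ) (B : ℝ)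
    (hx : Tendsto (fun m => ∑ i, x m i ^ 2) atTop (𝓝 0)) (hy : ∀ m, ∑ i, y m i ^ 2 ≤ B) :
    Tendsto (fun m => ∑ i, x m i * y m i) atTop (𝓝 0) := by
  have h1 : Tendsto (fun m => (∑ i, x m i * y m i) ^ 2) atTop (𝓝 0) := by
    have h2 : Tendsto (fun m => (∑ i, x m i ^ 2) * B) atTop (𝓝 (0 * B)) := hx.mul_const B
    rw [zero_mul] at h2
    refine squeeze_zero (fun m => sq_nonneg _) (fun m => ?_) h2
    refine (Finset.sum_mul_sq_le_sq_mul_sq _ _ _).trans ?_
    exact mul_le_mul_of_nonneg_left (hy m) (Finset.sum_nonneg fun _ _ => sq_nonneg _)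
  have h3 : Tendsto (fun m => |∑ i, x m i * y m i|) atTop (𝓝 0) := by
    have := h1.sqrt
    simpa [Real.sqrt_sq_eq_abs] using this
  exact (tendsto_zero_iff_abs_tendsto_zero _).2 h3

/-- the abstract limit lemma -/
theorem limit_lemma (P : Polynomial (Polynomial ℝ)) (h0 : ∀ j < 6, (P.coeff j).eval 0 = 0)
    (N : ℕ → ℕ) (q : (m : ℕ) → Fin (N m) → Polynomial ℝ)
    (hq : ∀ m, ∑ i, q m i ^ 2 = P.map (Polynomial.evalRingHom (1 / ((m : ℝ) + 1)))) :
    Tendsto (fun m => ∑ i, ((q m i).coeff 3) ^ 2) atTop (𝓝 ((P.coeff 6).eval 0)) := by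
  set τ : ℕ → ℝ := fun m => 1 / ((m : ℝ) + 1) with hτ
  have hτ0 : Tendsto τ atTop (𝓝 0) := tendsto_one_div_add_atTop_nhds_zero_nat
  set D := P.natDegree with hD
  have hdeg : ∀ m i, (q m i).natDegree ≤ D := by
    intro m i
    apply natDegree_le_of_sum_sq
    rw [hq]
    exact Polynomial.natDegree_map_le
  -- coefficients converge
  have hcoef : ∀ j, Tendsto (fun m => (∑ i, q m i ^ 2).coeff j) atTop
      (𝓝 ((P.coeff j).eval 0)) := by
    intro j
    have : (fun m => (∑ i, q m i ^ 2).coeff j) = fun m => (P.coeff j).eval (τ m) := by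
      funext m
      rw [hq, Polynomial.coeff_map]
      rfl
    rw [this]
    exact ((P.coeff j).continuous.tendsto 0).comp hτ0
  -- values are bounded
  have hval : ∃ B : ℝ, ∀ m, ∑ t ∈ Finset.range (D + 1), ((∑ i, q m i ^ 2).eval (t : ℝ)) ≤ B := by
    have hc : Tendsto (fun m => ∑ t ∈ Finset.range (D + 1),
        ((∑ i, q m i ^ 2).eval (t : ℝ))) atTop
        (𝓝 (∑ t ∈ Finset.range (D + 1), ∑ j ∈ Finset.range (D + 1),
          (P.coeff j).eval 0 * (t : ℝ) ^ j)) := by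
      refine tendsto_finsetSum _ fun t _ => ?_
      have he : (fun m => (∑ i, q m i ^ 2).eval (t : ℝ)) = fun m =>
          ∑ j ∈ Finset.range (D + 1), (∑ i, q m i ^ 2).coeff j * (t : ℝ) ^ j := by
        funext m
        refine Polynomial.eval_eq_sum_range' ?_ _
        rw [hq]
        exact Nat.lt_succ_of_le Polynomial.natDegree_map_le
      rw [he]
      exact tendsto_finsetSum _ fun j _ => (hcoef j).mul_const _
    obtain ⟨B, hB⟩ := hc.bddAbove_range
    exact ⟨B, fun m => hB ⟨m, rfl⟩⟩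
  obtain ⟨B0, hB0⟩ := hval
  have hbound : ∀ j, ∃ B : ℝ, ∀ m, ∑ i, ((q m i).coeff j) ^ 2 ≤ B := by
    intro j
    obtain ⟨K, hK, hKq⟩ := coeff_le_values D j
    refine ⟨K * B0, fun m => ?_⟩
    calc ∑ i, ((q m i).coeff j) ^ 2 ≤ ∑ i, K * ∑ t ∈ Finset.range (D + 1),
          ((q m i).eval (t : ℝ)) ^ 2 := Finset.sum_le_sum fun i _ => hKq _ (hdeg m i)
      _ = K * ∑ t ∈ Finset.range (D + 1), ((∑ i, q m i ^ 2).eval (t : ℝ)) := by
          rw [← Finset.mul_sum, Finset.sum_comm]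
          congr 1
          refine Finset.sum_congr rfl fun t _ => ?_
          rw [Polynomial.eval_finsetSum]
          simp
      _ ≤ K * B0 := mul_le_mul_of_nonneg_left (hB0 m) hK
  -- abbreviations
  set S : ℕ → ℕ → ℕ → ℝ := fun a b m => ∑ i, (q m i).coeff a * (q m i).coeff b with hS
  have hSs : ∀ a, (S a a) = fun m => ∑ i, ((q m i).coeff a) ^ 2 := by
    intro a; funext m; simp only [hS]; exact Finset.sum_congr rfl fun i _ => by ring
  have hcross : ∀ a b, Tendsto (S a a) atTop (𝓝 0) → Tendsto (S a b) atTop (𝓝 0) := by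
    intro a b h
    rw [hSs] at h
    obtain ⟨B, hB⟩ := hbound b
    exact cross_tendsto (fun m i => (q m i).coeff a) (fun m i => (q m i).coeff b) B h hB
  have hc0 : ∀ m, (∑ i, q m i ^ 2).coeff 0 = S 0 0 m := by
    intro m
    rw [Polynomial.finsetSum_coeff]
    refine Finset.sum_congr rfl fun i _ => ?_
    rw [pow_two, Polynomial.coeff_mul, Finset.Nat.sum_antidiagonal_eq_sum_range_succ_mk]
    simp
  have hc2 : ∀ m, (∑ i, q m i ^ 2).coeff 2 = S 1 1 m + 2 * S 0 2 m := by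
    intro m
    rw [Polynomial.finsetSum_coeff]
    simp only [hS]
    rw [Finset.mul_sum, ← Finset.sum_add_distrib]
    refine Finset.sum_congr rfl fun i _ => ?_
    rw [pow_two, Polynomial.coeff_mul, Finset.Nat.sum_antidiagonal_eq_sum_range_succ_mk]
    simp [Finset.sum_range_succ]
    ring
  have hc4 : ∀ m, (∑ i, q m i ^ 2).coeff 4 = S 2 2 m + 2 * S 1 3 m + 2 * S 0 4 m := by
    intro m
    rw [Polynomial.finsetSum_coeff]
    simp only [hS]
    rw [Finset.mul_sum, Finset.mul_sum, ← Finset.sum_add_distrib, ← Finset.sum_add_distrib]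
    refine Finset.sum_congr rfl fun i _ => ?_
    rw [pow_two, Polynomial.coeff_mul, Finset.Nat.sum_antidiagonal_eq_sum_range_succ_mk]
    simp [Finset.sum_range_succ]
    ring
  have hc6 : ∀ m, (∑ i, q m i ^ 2).coeff 6 =
      S 3 3 m + 2 * S 2 4 m + 2 * S 1 5 m + 2 * S 0 6 m := by
    intro m
    rw [Polynomial.finsetSum_coeff]
    simp only [hS]
    rw [Finset.mul_sum, Finset.mul_sum, Finset.mul_sum, ← Finset.sum_add_distrib,
      ← Finset.sum_add_distrib, ← Finset.sum_add_distrib]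
    refine Finset.sum_congr rfl fun i _ => ?_
    rw [pow_two, Polynomial.coeff_mul, Finset.Nat.sum_antidiagonal_eq_sum_range_succ_mk]
    simp [Finset.sum_range_succ]
    ring
  have t0 : Tendsto (S 0 0) atTop (𝓝 0) := by
    have := hcoef 0
    rw [h0 0 (by norm_num)] at this
    exact this.congr hc0
  have t1 : Tendsto (S 1 1) atTop (𝓝 0) := by
    have h := hcoef 2
    rw [h0 2 (by norm_num)] at h
    have h' := h.sub ((hcross 0 2 t0).const_mul 2)
    simp only [mul_zero, sub_zero] at h'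
    refine h'.congr fun m => ?_
    rw [hc2]; ring
  have t2 : Tendsto (S 2 2) atTop (𝓝 0) := by
    have h := hcoef 4
    rw [h0 4 (by norm_num)] at h
    have h' := (h.sub ((hcross 0 4 t0).const_mul 2)).sub ((hcross 1 3 t1).const_mul 2)
    simp only [mul_zero, sub_zero] at h'
    refine h'.congr fun m => ?_
    rw [hc4]; ring
  have t3 : Tendsto (S 3 3) atTop (𝓝 ((P.coeff 6).eval 0)) := by
    have h := hcoef 6
    have h' := ((h.sub ((hcross 0 6 t0).const_mul 2)).sub ((hcross 1 5 t1).const_mul 2)).sub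
      ((hcross 2 4 t2).const_mul 2)
    simp only [mul_zero, sub_zero] at h'
    refine h'.congr fun m => ?_
    rw [hc6]; ring
  rw [hSs] at t3
  exact t3



/-- restriction of a polynomial to the lines `p + t β(w)` -/
noncomputable def lineHom {σ : Type*} (p : σ → ℝ) (β : σ → MvPolynomial (Fin 3) ℝ) :
    MvPolynomial σ ℝ →ₐ[ℝ] Polynomial (MvPolynomial (Fin 3) ℝ) :=
  aeval fun b => Polynomial.C (C (p b)) + Polynomial.C (β b) * Polynomial.X

theorem lineHom_coeff {σ : Type*} (p : σ → ℝ) (β : σ → MvPolynomial (Fin 3) ℝ)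
    (hβ : ∀ b, (β b).IsHomogeneous 1) (G : MvPolynomial σ ℝ) :
    ∀ j, ((lineHom p β G).coeff j).IsHomogeneous j := by
  induction G using MvPolynomial.induction_on with
  | C a =>
      intro j
      have h : lineHom p β (C a) = Polynomial.C (C a) := by
        rw [lineHom, MvPolynomial.algHom_C]
        rfl
      rw [h, Polynomial.coeff_C]
      split_ifs with hj
      · rw [hj]; exact isHomogeneous_C _ _
      · exact isHomogeneous_zero _ _ _
  | add f g hf hg =>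
      intro j
      rw [map_add, Polynomial.coeff_add]
      exact (hf j).add (hg j)
  | mul_X f b hf =>
      intro j
      have h : lineHom p β (f * X b) =
          lineHom p β f * Polynomial.C (C (p b)) + lineHom p β f * Polynomial.C (β b) *
            Polynomial.X := by
        rw [map_mul]
        have : lineHom p β (X b) = Polynomial.C (C (p b)) + Polynomial.C (β b) * Polynomial.X := by
          rw [lineHom, aeval_X]
        rw [this]; ring
      rw [h, Polynomial.coeff_add, Polynomial.coeff_mul_C]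
      refine IsHomogeneous.add ?_ ?_
      · have := (hf j).mul (isHomogeneous_C (Fin 3) (p b))
        simpa using this
      · cases j with
        | zero =>
            rw [Polynomial.coeff_mul_X_zero]
            exact isHomogeneous_zero _ _ _
        | succ j =>
            rw [Polynomial.coeff_mul_X, Polynomial.coeff_mul_C]
            exact (hf j).mul (hβ b)

/-- the point `(i, j, 1)` -/
def pt (i j : ℝ) : Fin 3 → ℝ := ![i, j, 1]

/-- the second differences in the first two coordinates of a cubic form vanish -/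
theorem cubic_relation (Q : MvPolynomial (Fin 3) ℝ) (hQ : Q.IsHomogeneous 3) :
    eval (pt 1 1) Q + eval (pt 1 (-1)) Q + eval (pt (-1) 1) Q + eval (pt (-1) (-1)) Q
      - 2 * eval (pt 1 0) Q - 2 * eval (pt (-1) 0) Q - 2 * eval (pt 0 1) Q
      - 2 * eval (pt 0 (-1)) Q + 4 * eval (pt 0 0) Q = 0 := by
  have hsum : ∀ w : Fin 3 → ℝ, eval w Q = ∑ m ∈ Q.support, Q.coeff m * ∏ i, w i ^ m i :=
    fun w => eval_eq' w Q
  simp only [hsum, Finset.mul_sum, ← Finset.sum_add_distrib, ← Finset.sum_sub_distrib]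
  refine Finset.sum_eq_zero fun m hm => ?_
  have hdeg : m 0 + m 1 + m 2 = 3 := by
    have h := hQ (mem_support_iff.1 hm)
    rw [Finsupp.weight_apply, Finsupp.sum_fintype _ _ (fun i => by simp)] at h
    simpa [Fin.sum_univ_three] using h
  simp only [Fin.prod_univ_three, pt, Matrix.cons_val_zero, Matrix.cons_val_one,
    Matrix.cons_val_two, Matrix.head_cons, Matrix.tail_cons, one_pow, mul_one]
  have h01 : m 0 ≤ 1 ∨ m 1 ≤ 1 := by omega
  rcases h01 with h | h
  · have : m 0 = 0 ∨ m 0 = 1 := by omega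
    rcases this with h0 | h0 <;> rw [h0] <;> simp <;> ring
  · have : m 1 = 0 ∨ m 1 = 1 := by omega
    rcases this with h0 | h0 <;> rw [h0] <;> simp <;> ring





/-- Robinson's form -/
def robinson {A : Type*} [CommRing A] (x y z : A) : A :=
  x ^ 6 + y ^ 6 + z ^ 6 - (x ^ 4 * y ^ 2 + x ^ 4 * z ^ 2 + y ^ 4 * x ^ 2 + y ^ 4 * z ^ 2 +
    z ^ 4 * x ^ 2 + z ^ 4 * y ^ 2) + 3 * (x ^ 2 * y ^ 2 * z ^ 2)

theorem schur_aux (a b c : ℝ) (ha : 0 ≤ a) (hab : a ≤ b) (hbc : b ≤ c) :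
    0 ≤ a * (a - b) * (a - c) + b * (b - a) * (b - c) + c * (c - a) * (c - b) := by
  have h1 : 0 ≤ a * ((b - a) * (c - a)) :=
    mul_nonneg ha (mul_nonneg (by linarith) (by linarith))
  have h2 : 0 ≤ (c - b) * (c * (c - a) - b * (b - a)) := by
    refine mul_nonneg (by linarith) ?_
    have : b * (b - a) ≤ c * (c - a) :=
      mul_le_mul hbc (by linarith) (by linarith) (by linarith)
    linarith
  nlinarith

theorem robinson_nonneg (x y z : ℝ) : 0 ≤ robinson x y z := by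
  have key : ∀ a b c : ℝ, 0 ≤ a → 0 ≤ b → 0 ≤ c →
      0 ≤ a * (a - b) * (a - c) + b * (b - a) * (b - c) + c * (c - a) * (c - b) := by
    intro a b c ha hb hc
    rcases le_total a b with h1 | h1 <;> rcases le_total b c with h2 | h2 <;>
      rcases le_total a c with h3 | h3
    · have := schur_aux a b c ha h1 h2; linarith
    · have := schur_aux a b c ha h1 h2; linarith
    · have := schur_aux a c b ha h3 h2; linarith
    · have := schur_aux c a b hc h3 h1; linarith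
    · have := schur_aux b a c hb h1 h3; linarith
    · have := schur_aux b c a hb h2 h3; linarith
    · have := schur_aux c b a hc h2 h1; linarith
    · have := schur_aux c b a hc h2 h1; linarith
  have := key (x ^ 2) (y ^ 2) (z ^ 2) (sq_nonneg _) (sq_nonneg _) (sq_nonneg _)
  unfold robinson
  nlinarith [this]

/-- the normalised second power sum `b = 4 p_2 / 57` -/
noncomputable def bE {A : Type*} [CommRing A] [Algebra ℝ A] (P : ℕ → A) : A :=
  algebraMap ℝ A (4 / 57) * P 2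

noncomputable def U2 {A : Type*} [CommRing A] [Algebra ℝ A] (P : ℕ → A) : A :=
  (P 4 - 98 * bE P ^ 2) * bE P ^ 2

noncomputable def U3 {A : Type*} [CommRing A] [Algebra ℝ A] (P : ℕ → A) : A :=
  (P 6 - 794 * bE P ^ 3) * bE P

noncomputable def U4 {A : Type*} [CommRing A] [Algebra ℝ A] (P : ℕ → A) : A :=
  P 8 - 6818 * bE P ^ 4

noncomputable def W1 {A : Type*} [CommRing A] [Algebra ℝ A] (P : ℕ → A) : A :=
  9720 * U2 P - 2340 * U3 P + 135 * U4 P

noncomputable def W2 {A : Type*} [CommRing A] [Algebra ℝ A] (P : ℕ → A) : A :=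
  -486 * U2 P + 360 * U3 P - 27 * U4 P

noncomputable def W3 {A : Type*} [CommRing A] [Algebra ℝ A] (P : ℕ → A) : A :=
  24 * U2 P - 20 * U3 P + 3 * U4 P

noncomputable def HH {A : Type*} [CommRing A] [Algebra ℝ A] (P : ℕ → A) : A :=
  P 16 - 28 * P 14 * bE P + 294 * P 12 * bE P ^ 2 - 1444 * P 10 * bE P ^ 3 +
    3409 * P 8 * bE P ^ 4 - 3528 * P 6 * bE P ^ 5 + 1296 * P 4 * bE P ^ 6

/-- the counterexample, as a polynomial in the power sums `P j` -/
noncomputable def FF {A : Type*} [CommRing A] [Algebra ℝ A] (P : ℕ → A) : A :=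
  bE P ^ 8 * robinson (W1 P) (W2 P) (W3 P) + HH P ^ 4

/-- the counterexample -/
noncomputable def g : MvPolynomial ℕ ℝ := FF (fun j => X j)

theorem map_FF {A B : Type*} [CommRing A] [Algebra ℝ A] [CommRing B] [Algebra ℝ B]
    (φ : A →ₐ[ℝ] B) (P : ℕ → A) : φ (FF P) = FF (fun j => φ (P j)) := by
  simp only [FF, robinson, W1, W2, W3, U2, U3, U4, HH, bE, map_ofNat, map_add, map_mul, map_pow,
    map_sub, map_neg, AlgHom.commutes]

theorem FF_eq {A : Type*} [CommRing A] [Algebra ℝ A] (P Q : ℕ → A)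
    (h2 : P 2 = Q 2) (h4 : P 4 = Q 4) (h6 : P 6 = Q 6) (h8 : P 8 = Q 8) (h10 : P 10 = Q 10)
    (h12 : P 12 = Q 12) (h14 : P 14 = Q 14) (h16 : P 16 = Q 16) : FF P = FF Q := by
  simp only [FF, robinson, W1, W2, W3, U2, U3, U4, HH, bE, h2, h4, h6, h8, h10, h12, h14, h16]

theorem FF_congr {A : Type*} [CommRing A] [Algebra ℝ A] {P Q : ℕ → A}
    (h : ∀ i, P (2 * (i + 1)) = Q (2 * (i + 1))) : FF P = FF Q := by
  have h2 := h 0
  have h4 := h 1
  have h6 := h 2
  have h8 := h 3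
  have h10 := h 4
  have h12 := h 5
  have h14 := h 6
  have h16 := h 7
  norm_num at h2 h4 h6 h8 h10 h12 h14 h16
  simp only [FF, robinson, W1, W2, W3, U2, U3, U4, HH, bE, h2, h4, h6, h8, h10, h12, h14, h16]

theorem g_homogeneous : g.IsWeightedHomogeneous (id : ℕ → ℕ) (2 * 32) := by
  have hX : ∀ j : ℕ, (X j : MvPolynomial ℕ ℝ).IsWeightedHomogeneous (id : ℕ → ℕ) j :=
    fun j => isWeightedHomogeneous_X ℝ (id : ℕ → ℕ) j
  have hC : ∀ r : ℝ, (C r : MvPolynomial ℕ ℝ).IsWeightedHomogeneous (id : ℕ → ℕ) 0 :=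
    fun r => isWeightedHomogeneous_C (id : ℕ → ℕ) r
  have hN : ∀ n : ℕ, [n.AtLeastTwo] → (OfNat.ofNat n : MvPolynomial ℕ ℝ).IsWeightedHomogeneous
      (id : ℕ → ℕ) 0 := by
    intro n hn
    exact hC (OfNat.ofNat n)
  have hb : (bE (fun j => (X j : MvPolynomial ℕ ℝ))).IsWeightedHomogeneous (id : ℕ → ℕ) 2 := by
    have := (hC (4 / 57)).mul (hX 2)
    simpa [bE] using this
  have hb' : ∀ k, ((bE (fun j => (X j : MvPolynomial ℕ ℝ))) ^ k).IsWeightedHomogeneous
      (id : ℕ → ℕ) (2 * k) := by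
    intro k
    have := hb.pow k
    rwa [smul_eq_mul, mul_comm] at this
  have hU2 : (U2 (fun j => (X j : MvPolynomial ℕ ℝ))).IsWeightedHomogeneous (id : ℕ → ℕ) 8 := by
    exact ((hX 4).sub ((hN 98).mul (hb' 2))).mul (hb' 2)
  have hU3 : (U3 (fun j => (X j : MvPolynomial ℕ ℝ))).IsWeightedHomogeneous (id : ℕ → ℕ) 8 := by
    exact ((hX 6).sub ((hN 794).mul (hb' 3))).mul hb
  have hU4 : (U4 (fun j => (X j : MvPolynomial ℕ ℝ))).IsWeightedHomogeneous (id : ℕ → ℕ) 8 := by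
    exact (hX 8).sub ((hN 6818).mul (hb' 4))
  have hW1 : (W1 (fun j => (X j : MvPolynomial ℕ ℝ))).IsWeightedHomogeneous (id : ℕ → ℕ) 8 := by
    exact (((hN 9720).mul hU2).sub ((hN 2340).mul hU3)).add ((hN 135).mul hU4)
  have hW2 : (W2 (fun j => (X j : MvPolynomial ℕ ℝ))).IsWeightedHomogeneous (id : ℕ → ℕ) 8 := by
    have h := (((hN 486).mul hU2).neg.add ((hN 360).mul hU3)).sub ((hN 27).mul hU4)
    unfold W2
    rw [neg_mul]
    exact h
  have hW3 : (W3 (fun j => (X j : MvPolynomial ℕ ℝ))).IsWeightedHomogeneous (id : ℕ → ℕ) 8 := by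
    exact (((hN 24).mul hU2).sub ((hN 20).mul hU3)).add ((hN 3).mul hU4)
  have hR : (robinson (W1 (fun j => (X j : MvPolynomial ℕ ℝ)))
      (W2 (fun j => (X j : MvPolynomial ℕ ℝ)))
      (W3 (fun j => (X j : MvPolynomial ℕ ℝ)))).IsWeightedHomogeneous (id : ℕ → ℕ) 48 := by
    have a := hW1.pow 6
    have b := hW2.pow 6
    have c := hW3.pow 6
    have ab := (hW1.pow 4).mul (hW2.pow 2)
    have ac := (hW1.pow 4).mul (hW3.pow 2)
    have ba := (hW2.pow 4).mul (hW1.pow 2)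
    have bc := (hW2.pow 4).mul (hW3.pow 2)
    have ca := (hW3.pow 4).mul (hW1.pow 2)
    have cb := (hW3.pow 4).mul (hW2.pow 2)
    have abc := (hN 3).mul (((hW1.pow 2).mul (hW2.pow 2)).mul (hW3.pow 2))
    exact (((a.add b).add c).sub (((((ab.add ac).add ba).add bc).add ca).add cb)).add abc
  have hH : (HH (fun j => (X j : MvPolynomial ℕ ℝ))).IsWeightedHomogeneous (id : ℕ → ℕ) 16 := by
    have a := hX 16
    have b := ((hN 28).mul (hX 14)).mul hb
    have c := ((hN 294).mul (hX 12)).mul (hb' 2)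
    have d := ((hN 1444).mul (hX 10)).mul (hb' 3)
    have e := ((hN 3409).mul (hX 8)).mul (hb' 4)
    have f := ((hN 3528).mul (hX 6)).mul (hb' 5)
    have h := ((hN 1296).mul (hX 4)).mul (hb' 6)
    exact (((((a.sub b).add c).sub d).add e).sub f).add h
  exact ((hb' 8).mul hR).add (hH.pow 4)

theorem g_supported : g ∈ supported ℝ {j : ℕ | Even j ∧ 2 ≤ j ∧ j ≤ 2 * 32} := by
  have hX : ∀ j : ℕ, Even j ∧ 2 ≤ j ∧ j ≤ 2 * 32 →
      (X j : MvPolynomial ℕ ℝ) ∈ supported ℝ {j : ℕ | Even j ∧ 2 ≤ j ∧ j ≤ 2 * 32} :=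
    fun j hj => X_mem_supported.2 hj
  have hmap : g = (supported ℝ {j : ℕ | Even j ∧ 2 ≤ j ∧ j ≤ 2 * 32}).val
      (FF (fun j => if h : Even j ∧ 2 ≤ j ∧ j ≤ 2 * 32 then ⟨X j, hX j h⟩ else 0)) := by
    rw [map_FF, g]
    have e : ∀ n, Even n → 2 ≤ n → n ≤ 2 * 32 →
        (supported ℝ {j : ℕ | Even j ∧ 2 ≤ j ∧ j ≤ 2 * 32}).val
          (if h : Even n ∧ 2 ≤ n ∧ n ≤ 2 * 32 then ⟨X n, hX n h⟩ else 0) = X n := by
      intro n h1 h2 h3
      rw [dif_pos ⟨h1, h2, h3⟩]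
      rfl
    refine FF_eq _ _ ?_ ?_ ?_ ?_ ?_ ?_ ?_ ?_ <;>
    · exact (e _ (by decide) (by norm_num) (by norm_num)).symm
  rw [hmap]
  exact Subtype.property _


theorem sq_le_one {x : ℕ → ℝ} (hx : InSphere x) (i : ℕ) : x i ^ 2 ≤ 1 := by
  rw [← hx.2]
  exact hx.1.le_tsum i (fun j _ => sq_nonneg _)

theorem summable_even {x : ℕ → ℝ} (hx : InSphere x) (j : ℕ) :
    Summable fun i => x i ^ (2 * (j + 1)) := by
  refine Summable.of_nonneg_of_le (fun i => ?_) (fun i => ?_) hx.1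
  · rw [pow_mul]; positivity
  · rw [pow_mul, pow_succ]
    have h1 := sq_le_one hx i
    have h2 : (x i ^ 2) ^ j ≤ 1 := pow_le_one₀ (sq_nonneg _) h1
    nlinarith [sq_nonneg (x i)]

theorem value_g (x : ℕ → ℝ) : value g x = FF (fun j => ∑' i, x i ^ j) := by
  have h := map_FF (aeval (fun j => ∑' i, x i ^ j) : MvPolynomial ℕ ℝ →ₐ[ℝ] ℝ)
    (fun j => (X j : MvPolynomial ℕ ℝ))
  simp only [aeval_X] at h
  rw [← h, value, g, MvPolynomial.aeval_eq_eval]

/-- the symmetric function `HH` at a point of the sphere is a sum of squares -/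
theorem HH_value {x : ℕ → ℝ} (hx : InSphere x) :
    HasSum (fun i => (x i ^ 2) ^ 2 * (x i ^ 2 - 4 / 57) ^ 2 * (x i ^ 2 - 16 / 57) ^ 2 *
      (x i ^ 2 - 36 / 57) ^ 2) (HH (fun j => ∑' i, x i ^ j)) := by
  have s4 := (summable_even hx 1).hasSum
  have s6 := (summable_even hx 2).hasSum
  have s8 := (summable_even hx 3).hasSum
  have s10 := (summable_even hx 4).hasSum
  have s12 := (summable_even hx 5).hasSum
  have s14 := (summable_even hx 6).hasSum
  have s16 := (summable_even hx 7).hasSum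
  norm_num at s4 s6 s8 s10 s12 s14 s16
  have hb : bE (fun j => ∑' i, x i ^ j) = 4 / 57 := by
    simp only [bE]
    rw [hx.2]
    simp
  have h := ((((((s16.sub (s14.mul_left (28 * (4 / 57)))).add
    (s12.mul_left (294 * (4 / 57) ^ 2))).sub (s10.mul_left (1444 * (4 / 57) ^ 3))).add
    (s8.mul_left (3409 * (4 / 57) ^ 4))).sub (s6.mul_left (3528 * (4 / 57) ^ 5))).add
    (s4.mul_left (1296 * (4 / 57) ^ 6)))
  have e1 : HH (fun j => ∑' i, x i ^ j) = (∑' i, x i ^ 16) - 28 * (4 / 57) * (∑' i, x i ^ 14) +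
      294 * (4 / 57) ^ 2 * (∑' i, x i ^ 12) - 1444 * (4 / 57) ^ 3 * (∑' i, x i ^ 10) +
      3409 * (4 / 57) ^ 4 * (∑' i, x i ^ 8) - 3528 * (4 / 57) ^ 5 * (∑' i, x i ^ 6) +
      1296 * (4 / 57) ^ 6 * (∑' i, x i ^ 4) := by
    rw [HH, hb]; ring
  rw [e1]
  refine h.congr_fun ?_
  intro i
  ring

theorem HH_pos {x : ℕ → ℝ} (hx : InSphere x) : 0 < HH (fun j => ∑' i, x i ^ j) := by
  have h := HH_value hx
  have hnn : ∀ i, 0 ≤ (x i ^ 2) ^ 2 * (x i ^ 2 - 4 / 57) ^ 2 * (x i ^ 2 - 16 / 57) ^ 2 *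
      (x i ^ 2 - 36 / 57) ^ 2 := fun i => by positivity
  rcases (h.nonneg hnn).lt_or_eq with h1 | h1
  · exact h1
  exfalso
  rw [← h1] at h
  have hz := (hasSum_zero_iff_of_nonneg hnn).1 h
  have hval : ∀ i, ∃ n : ℕ, x i ^ 2 = 4 / 57 * (n : ℝ) := by
    intro i
    have h2 := congrFun hz i
    simp only [Pi.zero_apply, mul_eq_zero] at h2
    rcases h2 with ((h2 | h2) | h2) | h2
    · have h2 := pow_eq_zero_iff (two_ne_zero) |>.1 h2
      exact ⟨0, by rw [h2]; norm_num⟩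
    · have h2 := pow_eq_zero_iff (two_ne_zero) |>.1 h2
      exact ⟨1, by push_cast; linarith⟩
    · have h2 := pow_eq_zero_iff (two_ne_zero) |>.1 h2
      exact ⟨4, by push_cast; linarith⟩
    · have h2 := pow_eq_zero_iff (two_ne_zero) |>.1 h2
      exact ⟨9, by push_cast; linarith⟩
  choose n hn using hval
  -- finitely many nonzero terms
  have hfin : {i | n i ≠ 0}.Finite := by
    have ht := hx.1.tendsto_cofinite_zero
    have he : ∀ᶠ i in Filter.cofinite, x i ^ 2 < 4 / 57 :=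
      ht.eventually (gt_mem_nhds (by norm_num))
    refine (Filter.eventually_cofinite.1 he).subset ?_
    intro i hi
    simp only [Set.mem_ofPred_eq, not_lt] at hi ⊢
    rw [hn i]
    have : (1 : ℝ) ≤ n i := by exact_mod_cast Nat.one_le_iff_ne_zero.2 hi
    nlinarith
  have hs := hx.2
  rw [tsum_eq_sum (s := hfin.toFinset) (fun i hi => by
    rw [Set.Finite.mem_toFinset, Set.mem_ofPred_eq, not_not] at hi
    rw [hn i, hi]; simp)] at hs
  simp only [hn] at hs
  rw [← Finset.mul_sum, ← Nat.cast_sum] at hs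
  have h57 : (4 * (∑ i ∈ hfin.toFinset, n i : ℕ) : ℝ) = 57 := by linarith
  have h57' : 4 * (∑ i ∈ hfin.toFinset, n i) = 57 := by exact_mod_cast h57
  omega

theorem value_pos {x : ℕ → ℝ} (hx : InSphere x) : 0 < value g x := by
  rw [value_g, FF]
  have h1 := robinson_nonneg (W1 (fun j => ∑' i, x i ^ j)) (W2 (fun j => ∑' i, x i ^ j))
    (W3 (fun j => ∑' i, x i ^ j))
  have h2 := HH_pos hx
  have h3 : bE (fun j => ∑' i, x i ^ j) = 4 / 57 := by
    simp only [bE]
    rw [hx.2]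
    simp
  rw [h3]
  positivity


/-- the three big coordinates on the line with direction `y` -/
noncomputable def bigLine (y : Fin 3 → ℝ) (a : Fin 3) : Polynomial ℝ :=
  Polynomial.C ((a : ℕ) + 1 : ℝ) + Polynomial.C (y a) * Polynomial.X

/-- `2 (y_0 + 2 y_1 + 3 y_2)` -/
def slope (y : Fin 3 → ℝ) : ℝ := 2 * (y 0 + 2 * y 1 + 3 * y 2)

/-- the square root of the mass of the dust on the line with direction `y` -/
noncomputable def dustLine (y : Fin 3 → ℝ) : Polynomial ℝ :=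
  Polynomial.C (1 / 2) - Polynomial.C (slope y) * Polynomial.X

/-- power sums on the line, with `1 / τ` dust particles -/
noncomputable def PS (τ : ℝ) (y : Fin 3 → ℝ) (j : ℕ) : Polynomial ℝ :=
  bigLine y 0 ^ j + bigLine y 1 ^ j + bigLine y 2 ^ j +
    dustLine y ^ j * Polynomial.C (τ ^ (j / 2 - 1))

/-- the same with `τ` as a variable of the coefficients -/
noncomputable def PP (y : Fin 3 → ℝ) (j : ℕ) : Polynomial (Polynomial ℝ) :=
  (bigLine y 0).map Polynomial.C ^ j + (bigLine y 1).map Polynomial.C ^ j +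
    (bigLine y 2).map Polynomial.C ^ j +
    (dustLine y).map Polynomial.C ^ j * Polynomial.C (Polynomial.X ^ (j / 2 - 1))

theorem map_PP (τ : ℝ) (y : Fin 3 → ℝ) (j : ℕ) :
    (PP y j).map (Polynomial.evalRingHom τ) = PS τ y j := by
  have h : (Polynomial.evalRingHom τ).comp Polynomial.C = RingHom.id ℝ := by
    ext r; simp
  simp only [PP, PS, Polynomial.map_add, Polynomial.map_mul, Polynomial.map_pow,
    Polynomial.map_map, h, Polynomial.map_id, Polynomial.map_C, Polynomial.coe_evalRingHom,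
    Polynomial.eval_pow, Polynomial.eval_X]

/-- the mother polynomial of the line with direction `y` -/
noncomputable def mother (k : ℕ) (y : Fin 3 → ℝ) : Polynomial (Polynomial ℝ) :=
  PP y 2 ^ k * FF (PP y)

theorem map_mother (k : ℕ) (y : Fin 3 → ℝ) (τ : ℝ) :
    (mother k y).map (Polynomial.evalRingHom τ) = PS τ y 2 ^ k * FF (PS τ y) := by
  have h := map_FF (Polynomial.mapAlgHom (Polynomial.aeval τ : Polynomial ℝ →ₐ[ℝ] ℝ)) (PP y)
  have e : ∀ q : Polynomial (Polynomial ℝ),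
      (Polynomial.mapAlgHom (Polynomial.aeval τ : Polynomial ℝ →ₐ[ℝ] ℝ)) q =
        q.map (Polynomial.evalRingHom τ) := by
    intro q
    ext n
    simp [Polynomial.coe_mapAlgHom]
  simp only [e] at h
  rw [mother, Polynomial.map_mul, Polynomial.map_pow, h, map_PP]
  congr 2
  funext j
  exact map_PP τ y j

theorem HH_ring {A : Type*} [CommRing A] (x1 x2 x3 b : A) :
    (x1 ^ 16 + x2 ^ 16 + x3 ^ 16) - 28 * (x1 ^ 14 + x2 ^ 14 + x3 ^ 14) * b +
      294 * (x1 ^ 12 + x2 ^ 12 + x3 ^ 12) * b ^ 2 - 1444 * (x1 ^ 10 + x2 ^ 10 + x3 ^ 10) * b ^ 3 +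
      3409 * (x1 ^ 8 + x2 ^ 8 + x3 ^ 8) * b ^ 4 - 3528 * (x1 ^ 6 + x2 ^ 6 + x3 ^ 6) * b ^ 5 +
      1296 * (x1 ^ 4 + x2 ^ 4 + x3 ^ 4) * b ^ 6 =
    (x1 ^ 2) ^ 2 * (x1 ^ 2 - b) ^ 2 * (x1 ^ 2 - 4 * b) ^ 2 * (x1 ^ 2 - 9 * b) ^ 2 +
    (x2 ^ 2) ^ 2 * (x2 ^ 2 - b) ^ 2 * (x2 ^ 2 - 4 * b) ^ 2 * (x2 ^ 2 - 9 * b) ^ 2 +
    (x3 ^ 2) ^ 2 * (x3 ^ 2 - b) ^ 2 * (x3 ^ 2 - 4 * b) ^ 2 * (x3 ^ 2 - 9 * b) ^ 2 := by
  ring

/-- the structure of the polynomial on the line in the limit of infinitely fine dust -/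
theorem FF_zero (y : Fin 3 → ℝ) : ∃ (c E1 E2 E3 E4 : Polynomial ℝ),
    PS 0 y 2 = Polynomial.C (57 / 4) + Polynomial.X ^ 2 * (Polynomial.C (57 / 4) * c) ∧
    FF (PS 0 y) = Polynomial.X ^ 6 * ((1 + Polynomial.X ^ 2 * c) ^ 8 *
      robinson (Polynomial.C (25920 * y 0) + Polynomial.X * E1)
        (Polynomial.C (25920 * y 1) + Polynomial.X * E2)
        (Polynomial.C (25920 * y 2) + Polynomial.X * E3) + Polynomial.X ^ 2 * E4 ^ 4) := by
  set T : Polynomial ℝ := Polynomial.X with hT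
  set a : Polynomial ℝ := Polynomial.C (y 0) with ha
  set b : Polynomial ℝ := Polynomial.C (y 1) with hb
  set d : Polynomial ℝ := Polynomial.C (y 2) with hd
  set c : Polynomial ℝ := Polynomial.C (4 / 57) * (a ^ 2 + b ^ 2 + d ^ 2 +
    4 * (a + 2 * b + 3 * d) ^ 2) with hc
  have e1 : bigLine y 0 = 1 + a * T := by simp [bigLine, ha, hT]
  have e2 : bigLine y 1 = 2 + b * T := by
    simp only [bigLine, hb, hT]; norm_num
    rfl
  have e3 : bigLine y 2 = 3 + d * T := by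
    simp only [bigLine, hd, hT]; norm_num
    rfl
  have hs : Polynomial.C (slope y) = 2 * (a + 2 * b + 3 * d) := by
    simp only [slope, ha, hb, hd, map_mul, map_add, map_ofNat]
  have e4 : dustLine y = Polynomial.C (1 / 2) - 2 * (a + 2 * b + 3 * d) * T := by
    simp only [dustLine, hs, hT]
  have hhalf : (Polynomial.C (1 / 2) : Polynomial ℝ) * 2 = 1 := by
    rw [← map_ofNat (Polynomial.C : ℝ →+* Polynomial ℝ) 2, ← map_mul]; norm_num
  have hq : (Polynomial.C (57 / 4) : Polynomial ℝ) * Polynomial.C (4 / 57) = 1 := by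
    rw [← map_mul]; norm_num
  have hq2 : (Polynomial.C (57 / 4) : Polynomial ℝ) = 14 + Polynomial.C (1 / 2) ^ 2 := by
    rw [← map_pow, ← map_ofNat (Polynomial.C : ℝ →+* Polynomial ℝ) 14, ← map_add]; norm_num
  have P2 : PS 0 y 2 = Polynomial.C (57 / 4) + T ^ 2 * (Polynomial.C (57 / 4) * c) := by
    have : Polynomial.C (57 / 4) * c = a ^ 2 + b ^ 2 + d ^ 2 + 4 * (a + 2 * b + 3 * d) ^ 2 := by
      rw [hc, ← mul_assoc, hq, one_mul]
    rw [this, hq2]
    simp only [PS, e1, e2, e3, e4]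
    norm_num
    linear_combination (-2 * (a + 2 * b + 3 * d) * T) * hhalf
  have hbE : bE (PS 0 y) = 1 + T ^ 2 * c := by
    have h1 : algebraMap ℝ (Polynomial ℝ) (4 / 57) = Polynomial.C (4 / 57) := rfl
    rw [bE, P2, h1]
    linear_combination (1 + T ^ 2 * c) * hq
  have PSj : ∀ i : ℕ, PS 0 y (2 * (i + 2)) = (1 + a * T) ^ (2 * (i + 2)) +
      (2 + b * T) ^ (2 * (i + 2)) + (3 + d * T) ^ (2 * (i + 2)) := by
    intro i
    simp only [PS, e1, e2, e3]
    rw [show 2 * (i + 2) / 2 - 1 = i + 1 by omega]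
    simp
  have P4 := PSj 0
  have P6 := PSj 1
  have P8 := PSj 2
  have P10 := PSj 3
  have P12 := PSj 4
  have P14 := PSj 5
  have P16 := PSj 6
  norm_num at P4 P6 P8 P10 P12 P14 P16
  obtain ⟨k14, h14⟩ := Polynomial.powAddExpansion (1 : Polynomial ℝ) (a * T) 4
  obtain ⟨k24, h24⟩ := Polynomial.powAddExpansion (2 : Polynomial ℝ) (b * T) 4
  obtain ⟨k34, h34⟩ := Polynomial.powAddExpansion (3 : Polynomial ℝ) (d * T) 4
  obtain ⟨k16, h16⟩ := Polynomial.powAddExpansion (1 : Polynomial ℝ) (a * T) 6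
  obtain ⟨k26, h26⟩ := Polynomial.powAddExpansion (2 : Polynomial ℝ) (b * T) 6
  obtain ⟨k36, h36⟩ := Polynomial.powAddExpansion (3 : Polynomial ℝ) (d * T) 6
  obtain ⟨k18, h18⟩ := Polynomial.powAddExpansion (1 : Polynomial ℝ) (a * T) 8
  obtain ⟨k28, h28⟩ := Polynomial.powAddExpansion (2 : Polynomial ℝ) (b * T) 8
  obtain ⟨k38, h38⟩ := Polynomial.powAddExpansion (3 : Polynomial ℝ) (d * T) 8
  norm_num at h14 h24 h34 h16 h26 h36 h18 h28 h38
  have Q4 : PS 0 y 4 = 98 + T * (4 * a + 32 * b + 108 * d) +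
      T ^ 2 * (k14 * a ^ 2 + k24 * b ^ 2 + k34 * d ^ 2) := by
    rw [P4, h14, h24, h34]; ring
  have Q6 : PS 0 y 6 = 794 + T * (6 * a + 192 * b + 1458 * d) +
      T ^ 2 * (k16 * a ^ 2 + k26 * b ^ 2 + k36 * d ^ 2) := by
    rw [P6, h16, h26, h36]; ring
  have Q8 : PS 0 y 8 = 6818 + T * (8 * a + 1024 * b + 17496 * d) +
      T ^ 2 * (k18 * a ^ 2 + k28 * b ^ 2 + k38 * d ^ 2) := by
    rw [P8, h18, h28, h38]; ring
  obtain ⟨K4, hK4⟩ : ∃ K, K = k14 * a ^ 2 + k24 * b ^ 2 + k34 * d ^ 2 := ⟨_, rfl⟩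
  obtain ⟨K6, hK6⟩ : ∃ K, K = k16 * a ^ 2 + k26 * b ^ 2 + k36 * d ^ 2 := ⟨_, rfl⟩
  obtain ⟨K8, hK8⟩ : ∃ K, K = k18 * a ^ 2 + k28 * b ^ 2 + k38 * d ^ 2 := ⟨_, rfl⟩
  rw [← hK4] at Q4
  rw [← hK6] at Q6
  rw [← hK8] at Q8
  clear hK4 hK6 hK8 h14 h24 h34 h16 h26 h36 h18 h28 h38
  obtain ⟨A2, hA2⟩ : ∃ A2, U2 (PS 0 y) = T * (4 * a + 32 * b + 108 * d) + T ^ 2 * A2 := by
    refine ⟨T * (4 * a + 32 * b + 108 * d) * (2 * c + T ^ 2 * c ^ 2) +
      (K4 - 98 * (2 * c + T ^ 2 * c ^ 2)) * (1 + T ^ 2 * (2 * c + T ^ 2 * c ^ 2)), ?_⟩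
    rw [U2, Q4, hbE]; ring
  obtain ⟨A3, hA3⟩ : ∃ A3, U3 (PS 0 y) = T * (6 * a + 192 * b + 1458 * d) + T ^ 2 * A3 := by
    refine ⟨T * (6 * a + 192 * b + 1458 * d) * c +
      (K6 - 794 * (3 * c + 3 * T ^ 2 * c ^ 2 + T ^ 4 * c ^ 3)) * (1 + T ^ 2 * c), ?_⟩
    rw [U3, Q6, hbE]; ring
  obtain ⟨A4, hA4⟩ : ∃ A4, U4 (PS 0 y) = T * (8 * a + 1024 * b + 17496 * d) + T ^ 2 * A4 := by
    refine ⟨K8 - 6818 * (4 * c + 6 * T ^ 2 * c ^ 2 + 4 * T ^ 4 * c ^ 3 + T ^ 6 * c ^ 4), ?_⟩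
    rw [U4, Q8, hbE]; ring
  have hW1 : W1 (PS 0 y) = T * (25920 * a + T * (9720 * A2 - 2340 * A3 + 135 * A4)) := by
    rw [W1, hA2, hA3, hA4]; ring
  have hW2 : W2 (PS 0 y) = T * (25920 * b + T * (-486 * A2 + 360 * A3 - 27 * A4)) := by
    rw [W2, hA2, hA3, hA4]; ring
  have hW3 : W3 (PS 0 y) = T * (25920 * d + T * (24 * A2 - 20 * A3 + 3 * A4)) := by
    rw [W3, hA2, hA3, hA4]; ring
  obtain ⟨A5, hA5⟩ : ∃ A5, HH (PS 0 y) = T ^ 2 * A5 := by
    have h := HH_ring (1 + a * T) (2 + b * T) (3 + d * T) (bE (PS 0 y))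
    rw [← P4, ← P6, ← P8, ← P10, ← P12, ← P14, ← P16] at h
    rw [HH, h, hbE]
    refine ⟨((1 + a * T) ^ 2) ^ 2 * (2 * a + a ^ 2 * T - T * c) ^ 2 *
      ((1 + a * T) ^ 2 - 4 * (1 + T ^ 2 * c)) ^ 2 * ((1 + a * T) ^ 2 - 9 * (1 + T ^ 2 * c)) ^ 2 +
      ((2 + b * T) ^ 2) ^ 2 * ((2 + b * T) ^ 2 - (1 + T ^ 2 * c)) ^ 2 *
      (4 * b + b ^ 2 * T - 4 * T * c) ^ 2 * ((2 + b * T) ^ 2 - 9 * (1 + T ^ 2 * c)) ^ 2 +
      ((3 + d * T) ^ 2) ^ 2 * ((3 + d * T) ^ 2 - (1 + T ^ 2 * c)) ^ 2 *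
      ((3 + d * T) ^ 2 - 4 * (1 + T ^ 2 * c)) ^ 2 * (6 * d + d ^ 2 * T - 9 * T * c) ^ 2, ?_⟩
    have f1 : (1 + a * T) ^ 2 - (1 + T ^ 2 * c) = T * (2 * a + a ^ 2 * T - T * c) := by ring
    have f2 : (2 + b * T) ^ 2 - 4 * (1 + T ^ 2 * c) = T * (4 * b + b ^ 2 * T - 4 * T * c) := by
      ring
    have f3 : (3 + d * T) ^ 2 - 9 * (1 + T ^ 2 * c) = T * (6 * d + d ^ 2 * T - 9 * T * c) := by
      ring
    rw [f1, f2, f3]
    generalize (1 + a * T) ^ 2 - 4 * (1 + T ^ 2 * c) = g1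
    generalize (1 + a * T) ^ 2 - 9 * (1 + T ^ 2 * c) = g2
    generalize (2 + b * T) ^ 2 - (1 + T ^ 2 * c) = g3
    generalize (2 + b * T) ^ 2 - 9 * (1 + T ^ 2 * c) = g4
    generalize (3 + d * T) ^ 2 - (1 + T ^ 2 * c) = g5
    generalize (3 + d * T) ^ 2 - 4 * (1 + T ^ 2 * c) = g6
    ring
  have hCa : (Polynomial.C (25920 * y 0) : Polynomial ℝ) = 25920 * a := by
    rw [map_mul, map_ofNat]
  have hCb : (Polynomial.C (25920 * y 1) : Polynomial ℝ) = 25920 * b := by
    rw [map_mul, map_ofNat]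
  have hCd : (Polynomial.C (25920 * y 2) : Polynomial ℝ) = 25920 * d := by
    rw [map_mul, map_ofNat]
  refine ⟨c, 9720 * A2 - 2340 * A3 + 135 * A4, -486 * A2 + 360 * A3 - 27 * A4,
    24 * A2 - 20 * A3 + 3 * A4, A5, P2, ?_⟩
  rw [hCa, hCb, hCd, FF, hbE, hW1, hW2, hW3, hA5]
  generalize 25920 * a + T * (9720 * A2 - 2340 * A3 + 135 * A4) = w1
  generalize 25920 * b + T * (-486 * A2 + 360 * A3 - 27 * A4) = w2
  generalize 25920 * d + T * (24 * A2 - 20 * A3 + 3 * A4) = w3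
  generalize 1 + T ^ 2 * c = w4
  unfold robinson
  ring

theorem mother_zero (k : ℕ) (y : Fin 3 → ℝ) :
    (∀ j < 6, ((mother k y).coeff j).eval 0 = 0) ∧
    ((mother k y).coeff 6).eval 0 = (57 / 4) ^ k * (25920 ^ 6 * robinson (y 0) (y 1) (y 2)) := by
  obtain ⟨c, E1, E2, E3, E4, h2, hF⟩ := FF_zero y
  have hm : (mother k y).map (Polynomial.evalRingHom 0) = Polynomial.X ^ 6 *
      ((Polynomial.C (57 / 4) + Polynomial.X ^ 2 * (Polynomial.C (57 / 4) * c)) ^ k *
      ((1 + Polynomial.X ^ 2 * c) ^ 8 *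
      robinson (Polynomial.C (25920 * y 0) + Polynomial.X * E1)
        (Polynomial.C (25920 * y 1) + Polynomial.X * E2)
        (Polynomial.C (25920 * y 2) + Polynomial.X * E3) + Polynomial.X ^ 2 * E4 ^ 4)) := by
    rw [map_mother, hF, h2]; ring
  have hc : ∀ j, ((mother k y).coeff j).eval 0 =
      ((mother k y).map (Polynomial.evalRingHom 0)).coeff j := by
    intro j
    rw [Polynomial.coeff_map]
    rfl
  constructor
  · intro j hj
    rw [hc, hm, Polynomial.coeff_X_pow_mul', if_neg (by omega)]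
  · rw [hc, hm, Polynomial.coeff_X_pow_mul', if_pos le_rfl, Nat.sub_self,
      Polynomial.coeff_zero_eq_eval_zero]
    simp only [robinson, Polynomial.eval_add, Polynomial.eval_mul, Polynomial.eval_pow,
      Polynomial.eval_sub, Polynomial.eval_C, Polynomial.eval_X, Polynomial.eval_one,
      Polynomial.eval_ofNat]
    ring


theorem exists_of_isSumSq {R : Type*} [CommRing R] {s : R} (h : IsSumSq s) :
    ∃ (N : ℕ) (q : Fin N → R), s = ∑ i, q i ^ 2 := by
  induction h with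
  | zero => exact ⟨0, fun i => i.elim0, by simp⟩
  | sq_add a _ ih =>
      obtain ⟨N, q, rfl⟩ := ih
      refine ⟨N + 1, Fin.cons a q, ?_⟩
      rw [Fin.sum_univ_succ]
      simp [pow_two]

/-- base point of the lines -/
noncomputable def basePt (m : ℕ) : Fin (3 + (m + 1)) → ℝ :=
  Fin.append (fun a => ((a : ℕ) + 1 : ℝ)) (fun _ => (1 / 2) / Real.sqrt ((m : ℝ) + 1))

/-- directions of the lines -/
noncomputable def dirPt (m : ℕ) : Fin (3 + (m + 1)) → MvPolynomial (Fin 3) ℝ :=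
  Fin.append (fun a => X a) (fun _ => C (-(2 / Real.sqrt ((m : ℝ) + 1))) *
    (X 0 + C 2 * X 1 + C 3 * X 2))

theorem dirPt_homogeneous (m : ℕ) (b : Fin (3 + (m + 1))) : (dirPt m b).IsHomogeneous 1 := by
  unfold dirPt
  refine Fin.addCases (fun a => ?_) (fun a => ?_) b
  · rw [Fin.append_left]
    exact isHomogeneous_X _ _
  · rw [Fin.append_right]
    have hC : ∀ (r : ℝ) (a : Fin 3), (C r * X a : MvPolynomial (Fin 3) ℝ).IsHomogeneous 1 := by
      intro r a
      simpa using (isHomogeneous_C (Fin 3) r).mul (isHomogeneous_X ℝ a)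
    have h := (((isHomogeneous_X ℝ (0 : Fin 3)).add (hC 2 1)).add (hC 3 2))
    simpa using (isHomogeneous_C (Fin 3) (-(2 / Real.sqrt ((m : ℝ) + 1)))).mul h

/-- restriction to the line with direction `y` -/
noncomputable def lineY (m : ℕ) (y : Fin 3 → ℝ) :
    MvPolynomial (Fin (3 + (m + 1))) ℝ →ₐ[ℝ] Polynomial ℝ :=
  (Polynomial.mapAlgHom (aeval y : MvPolynomial (Fin 3) ℝ →ₐ[ℝ] ℝ)).comp
    (lineHom (basePt m) (dirPt m))

theorem lineY_coeff (m : ℕ) (y : Fin 3 → ℝ) (G : MvPolynomial (Fin (3 + (m + 1))) ℝ) (j : ℕ) :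
    (lineY m y G).coeff j = eval y ((lineHom (basePt m) (dirPt m) G).coeff j) := by
  simp [lineY, Polynomial.coe_mapAlgHom, Polynomial.coeff_map]

theorem lineY_X (m : ℕ) (y : Fin 3 → ℝ) (b : Fin (3 + (m + 1))) :
    lineY m y (X b) = Polynomial.C (basePt m b) +
      Polynomial.C (eval y (dirPt m b)) * Polynomial.X := by
  simp only [lineY, AlgHom.comp_apply, lineHom, aeval_X, Polynomial.coe_mapAlgHom,
    Polynomial.map_add, Polynomial.map_mul, Polynomial.map_C, Polynomial.map_X]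
  simp [MvPolynomial.aeval_eq_eval]

theorem lineY_X_left (m : ℕ) (y : Fin 3 → ℝ) (a : Fin 3) :
    lineY m y (X (Fin.castAdd (m + 1) a)) = bigLine y a := by
  rw [lineY_X, basePt, dirPt, Fin.append_left, Fin.append_left, eval_X, bigLine]

theorem lineY_X_right (m : ℕ) (y : Fin 3 → ℝ) (a : Fin (m + 1)) :
    lineY m y (X (Fin.natAdd 3 a)) =
      Polynomial.C (1 / Real.sqrt ((m : ℝ) + 1)) * dustLine y := by
  rw [lineY_X, basePt, dirPt, Fin.append_right, Fin.append_right]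
  have h1 : eval y (C (-(2 / Real.sqrt ((m : ℝ) + 1))) * (X 0 + C 2 * X 1 + C 3 * X 2)) =
      -(1 / Real.sqrt ((m : ℝ) + 1) * slope y) := by
    simp only [map_mul, map_add, eval_C, eval_X, slope]; ring
  have h2 : 1 / 2 / Real.sqrt ((m : ℝ) + 1) = 1 / Real.sqrt ((m : ℝ) + 1) * (1 / 2) := by ring
  rw [h1, h2, dustLine, map_neg, map_mul, map_mul]
  ring

theorem lineY_psum (m : ℕ) (y : Fin 3 → ℝ) (i : ℕ) :
    lineY m y (psum (Fin (3 + (m + 1))) ℝ (2 * (i + 1))) =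
      PS (1 / ((m : ℝ) + 1)) y (2 * (i + 1)) := by
  have hpos : (0 : ℝ) < (m : ℝ) + 1 := by positivity
  rw [psum, map_sum, Fin.sum_univ_add]
  simp only [map_pow, lineY_X_left, lineY_X_right]
  rw [Fin.sum_univ_three, Finset.sum_const, Finset.card_univ, Fintype.card_fin, PS,
    show 2 * (i + 1) / 2 - 1 = i by omega, mul_pow, ← map_pow]
  congr 1
  rw [pow_mul, div_pow, Real.sq_sqrt hpos.le, nsmul_eq_mul]
  have : ((m + 1 : ℕ) : Polynomial ℝ) = Polynomial.C ((m : ℝ) + 1) := by simp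
  rw [this, ← mul_assoc, ← map_mul, mul_comm]
  congr 2
  rw [one_pow, pow_succ]
  field_simp

theorem lineY_trunc (m k : ℕ) (y : Fin 3 → ℝ) :
    lineY m y (trunc (3 + (m + 1)) (X 2 ^ k * g)) =
      (mother k y).map (Polynomial.evalRingHom (1 / ((m : ℝ) + 1))) := by
  rw [map_mother, trunc, map_mul, map_mul, map_pow, map_pow, aeval_X]
  have h2 := lineY_psum m y 0
  norm_num at h2
  rw [one_div] at *
  rw [h2]
  congr 1
  rw [g, map_FF, map_FF]
  apply FF_congr
  intro i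
  simp only [aeval_X]
  have := lineY_psum m y i
  rwa [one_div] at this

theorem no_certificate (k : ℕ) : ¬ AnyDimSOS (X 2 ^ k * g) := by
  intro hSOS
  have h : ∀ m : ℕ, ∃ (N : ℕ) (q : Fin N → MvPolynomial (Fin (3 + (m + 1))) ℝ),
      trunc (3 + (m + 1)) (X 2 ^ k * g) = ∑ i, q i ^ 2 :=
    fun m => exists_of_isSumSq (hSOS _ (by omega))
  choose N q hq using h
  have key : ∀ y : Fin 3 → ℝ, Tendsto (fun m => ∑ i, ((lineY m y (q m i)).coeff 3) ^ 2) atTop
      (𝓝 ((57 / 4) ^ k * (25920 ^ 6 * robinson (y 0) (y 1) (y 2)))) := by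
    intro y
    rw [← (mother_zero k y).2]
    refine limit_lemma (mother k y) (mother_zero k y).1 N (fun m i => lineY m y (q m i)) ?_
    intro m
    rw [← lineY_trunc, hq, map_sum]
    simp only [map_pow]
  have hrel : ∀ m i, (lineY m (pt 1 1) (q m i)).coeff 3 + (lineY m (pt 1 (-1)) (q m i)).coeff 3 +
      (lineY m (pt (-1) 1) (q m i)).coeff 3 + (lineY m (pt (-1) (-1)) (q m i)).coeff 3
      - 2 * (lineY m (pt 1 0) (q m i)).coeff 3 - 2 * (lineY m (pt (-1) 0) (q m i)).coeff 3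
      - 2 * (lineY m (pt 0 1) (q m i)).coeff 3 - 2 * (lineY m (pt 0 (-1)) (q m i)).coeff 3
      + 4 * (lineY m (pt 0 0) (q m i)).coeff 3 = 0 := by
    intro m i
    simp only [lineY_coeff]
    exact cubic_relation _ (lineHom_coeff _ _ (dirPt_homogeneous m) _ 3)
  have hle : ∀ m, ∑ i, ((lineY m (pt 0 0) (q m i)).coeff 3) ^ 2 ≤
      2 * (∑ i, ((lineY m (pt 1 1) (q m i)).coeff 3) ^ 2 +
        ∑ i, ((lineY m (pt 1 (-1)) (q m i)).coeff 3) ^ 2 +
        ∑ i, ((lineY m (pt (-1) 1) (q m i)).coeff 3) ^ 2 +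
        ∑ i, ((lineY m (pt (-1) (-1)) (q m i)).coeff 3) ^ 2 +
        ∑ i, ((lineY m (pt 1 0) (q m i)).coeff 3) ^ 2 +
        ∑ i, ((lineY m (pt (-1) 0) (q m i)).coeff 3) ^ 2 +
        ∑ i, ((lineY m (pt 0 1) (q m i)).coeff 3) ^ 2 +
        ∑ i, ((lineY m (pt 0 (-1)) (q m i)).coeff 3) ^ 2) := by
    intro m
    simp only [← Finset.sum_add_distrib, Finset.mul_sum]
    refine Finset.sum_le_sum fun i _ => ?_
    have h := hrel m i
    generalize (lineY m (pt 1 1) (q m i)).coeff 3 = a1 at *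
    generalize (lineY m (pt 1 (-1)) (q m i)).coeff 3 = a2 at *
    generalize (lineY m (pt (-1) 1) (q m i)).coeff 3 = a3 at *
    generalize (lineY m (pt (-1) (-1)) (q m i)).coeff 3 = a4 at *
    generalize (lineY m (pt 1 0) (q m i)).coeff 3 = a5 at *
    generalize (lineY m (pt (-1) 0) (q m i)).coeff 3 = a6 at *
    generalize (lineY m (pt 0 1) (q m i)).coeff 3 = a7 at *
    generalize (lineY m (pt 0 (-1)) (q m i)).coeff 3 = a8 at *
    generalize (lineY m (pt 0 0) (q m i)).coeff 3 = a0 at *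
    have e : a0 = (2 * (a5 + a6 + a7 + a8) - (a1 + a2 + a3 + a4)) / 4 := by linarith
    have hcs : (2 * (a5 + a6 + a7 + a8) - (a1 + a2 + a3 + a4)) ^ 2 ≤
        8 * (4 * (a5 ^ 2 + a6 ^ 2 + a7 ^ 2 + a8 ^ 2) + (a1 ^ 2 + a2 ^ 2 + a3 ^ 2 + a4 ^ 2)) := by
      have h1 : (a5 + a6 + a7 + a8) ^ 2 ≤ 4 * (a5 ^ 2 + a6 ^ 2 + a7 ^ 2 + a8 ^ 2) := by
        nlinarith [sq_nonneg (a5 - a6), sq_nonneg (a5 - a7), sq_nonneg (a5 - a8),
          sq_nonneg (a6 - a7), sq_nonneg (a6 - a8), sq_nonneg (a7 - a8)]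
      have h2 : (a1 + a2 + a3 + a4) ^ 2 ≤ 4 * (a1 ^ 2 + a2 ^ 2 + a3 ^ 2 + a4 ^ 2) := by
        nlinarith [sq_nonneg (a1 - a2), sq_nonneg (a1 - a3), sq_nonneg (a1 - a4),
          sq_nonneg (a2 - a3), sq_nonneg (a2 - a4), sq_nonneg (a3 - a4)]
      have h3 : (2 * (a5 + a6 + a7 + a8) - (a1 + a2 + a3 + a4)) ^ 2 ≤
          2 * ((2 * (a5 + a6 + a7 + a8)) ^ 2 + (a1 + a2 + a3 + a4) ^ 2) := by
        nlinarith [sq_nonneg (2 * (a5 + a6 + a7 + a8) + (a1 + a2 + a3 + a4))]
      nlinarith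
    rw [e, div_pow]
    nlinarith [sq_nonneg a1, sq_nonneg a2, sq_nonneg a3, sq_nonneg a4, sq_nonneg a5,
      sq_nonneg a6, sq_nonneg a7, sq_nonneg a8]
  have t0 := key (pt 0 0)
  have t := (((((((key (pt 1 1)).add (key (pt 1 (-1)))).add (key (pt (-1) 1))).add
    (key (pt (-1) (-1)))).add (key (pt 1 0))).add (key (pt (-1) 0))).add (key (pt 0 1))).add
    (key (pt 0 (-1)))
  have t2 := t.const_mul 2
  have hlim := le_of_tendsto_of_tendsto' t0 t2 hle
  have hpos : (0 : ℝ) < (57 / 4) ^ k := by positivity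
  simp only [pt, robinson, Matrix.cons_val_zero, Matrix.cons_val_one, Matrix.cons_val_two,
    Matrix.head_cons, Matrix.tail_cons] at hlim
  norm_num at hlim
  linarith

/-- Q2 has a negative answer: there is a symmetric function `f ∈ ℝ[p_2, p_4, ..., p_{2d}]`,
homogeneous of degree `2 d` and strictly positive on the unit sphere of `ℓ²`, such that for no `k`
is `p_2 ^ k f` an any-dimensional sum of squares. -/
theorem result : ∃ (d : ℕ) (f : MvPolynomial ℕ ℝ), 1 ≤ d ∧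
    f ∈ supported ℝ {j : ℕ | Even j ∧ 2 ≤ j ∧ j ≤ 2 * d} ∧
    f.IsWeightedHomogeneous (id : ℕ → ℕ) (2 * d) ∧ (∀ x, InSphere x → 0 < value f x) ∧
    ∀ k : ℕ, ¬ AnyDimSOS (X 2 ^ k * f) :=
  ⟨32, g, by norm_num, g_supported, g_homogeneous, fun _ hx => value_pos hx, no_certificate⟩

end Pool.Agent.Results.MP_2f3180_ag.ReznickFails
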